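import Pool.Agent.Lib.QR.D0
import Pool.Agent.Lib.CFT.B03
import Pool.Agent.Lib.CFT.B01

open NumberField IsDedekindDomain CFT

namespace Pool.Agent.QR

set_option linter.unusedSectionVars false

variable {K : Type} [Field K] [NumberField K]

/-- C1a. SqMod for integral elements. PROOF. (<=) r = t^2 mod v, y = t: val (r - t^2) < 1 (val of an element of v is < 1: Valuation lt_one_iff_mem / od_pos_iff). (=>) val y^2 <= max (val r, val (r - y^2)) <= 1, so val y <= 1; write y = c / d,
d not in v (frac_prime with S = {v}); r d^2 - c^2 in v; d is invertible in the field O_K / v. -/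
theorem sqMod_int (v : Pr K) (r : 𝓞 K) : SqMod v (r : K) ↔ IsSquare (Ideal.Quotient.mk v.asIdeal r) := sorry

/-- C1b. PROOF. If x / y^2 ... : x = z * t^2 with val t = 1: SqMod v x iff SqMod v z (multiply or divide the root by t). -/
theorem sqMod_mul_sq (v : Pr K) {x t : K} (ht : od v t = 0) (ht0 : t ≠ 0) : SqMod v (x * t ^ 2) ↔ SqMod v x := sorry

/-- C1c. The symbol is multiplicative.
PROOF. By C1b and frac_prime reduce to x, y in O_K not in v (x = a/b = (a b) / b^2). In the finite field F = O_K/v (characteristic <> 2: 2 is not in v) : IsSquare (a b) iff (IsSquare a iff IsSquare b) for nonzero a, b (quadraticChar is multiplicative: quadraticChar_one_iff_isSquare,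
map_mul; DecidableEq classical; Fintype F). -/
theorem qs_mul {v : Pr K} (h2 : (2 : 𝓞 K) ∉ v.asIdeal) {x y : K} (hx0 : x ≠ 0) (hy0 : y ≠ 0) (hx : od v x = 0) (hy : od v y = 0) :
    qs v (x * y) = qs v x + qs v y := sorry

/-- C1d. An element near to x has the same symbol. PROOF. val (x' - y^2) <= max (val (x' - x), val (x - y^2)). -/
theorem qs_congr {v : Pr K} {x x' : K} (h : v.valuation K (x' - x) < 1) : qs v x' = qs v x := sorry

/-- C1e. PROOF. LSq v x with N = 0: val (x / y^2 - 1) < 1, so od v x = 2 od v y, and if od v x = 0 then val (x - y^2) < 1. -/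
theorem qs_of_LSq {v : Pr K} {x : K} (hx : x ≠ 0) (h : LSq v x) : Even (od v x) ∧ (od v x = 0 → qs v x = 0) := sorry

end Pool.Agent.QR
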