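import Pool.Agent.Lib.QR.D0
import Pool.Agent.Lib.CFT.B01

open NumberField IsDedekindDomain CFT

namespace Pool.Agent.QR

set_option linter.unusedSectionVars false

variable {K : Type} [Field K] [NumberField K]

/-- L1. Elements near 1 are local squares (Newton iteration inside K).
PROOF. e = od v 2 (a natural number, od_nonneg). Let val denote v.valuation K; val 2 = exp(-e) by val_eq. Claim: for every n there is y in K with val y = 1 and
val (x - y^2) < exp (-(2 e + n)). n = 0: y = 1. Step: if x = y^2 take the same y; otherwise let z = y + (x - y^2)/(2 y). Then x - z^2 = -((x - y^2)/(2 y))^2 (field_simp, ring), so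
with od: od (x - z^2) = 2 (od (x - y^2) - e) >= 2 (2 e + n + 1 - e) = 2 e + 2 n + 2 > 2 e + (n + 1) (val_lt_iff of CFT/B01 translates < exp(-N) into N < od for nonzero elements), and
val ((x - y^2)/(2 y)) < 1, so val z = 1 (Valuation.map_add_eq_of_lt_left or right). From the claim: given N take n = N; x / y^2 - 1 = (x - y^2) / y^2 has the same valuation as x - y^2. -/
theorem lsq_of_near (v : Pr K) {x : K} (h : v.valuation K (x - 1) < WithZero.exp (-(2 * od v (2 : K)))) : LSq v x := sorry

/-- The ray modulo a large power consists of local squares. PROOF. Take N >= 2 od v 2 for all v in S (finite set; S.sup or induction) and use lsq_of_near with the monotonicity of WithZero.exp. -/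
theorem ray_ls (S : Finset (Pr K)) : ∃ N : ℕ, ∀ x : Kˣ, Ray S N (x : K) → x ∈ LS S := sorry

end Pool.Agent.QR
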