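import Pool.Agent.Lib.QR.C1
import Pool.Agent.Lib.QR.L1
import Pool.Agent.Lib.CFT.B14
import Pool.Agent.Lib.CFT.B15

open NumberField IsDedekindDomain CFT

namespace Pool.Agent.QR

set_option linter.unusedSectionVars false

variable {K : Type} [Field K] [NumberField K]

/-- C2a. Hensel at odd primes: a square modulo v is a local square. PROOF. val (x - y^2) < 1, val x = 1 so val y = 1, val (x / y^2 - 1) < 1 = exp (-(2 * od v 2)) as od v 2 = 0 (2 not in v); lsq_of_near for x / y^2; multiply by y^2 (lsq_sq, LSq.mul). -/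
theorem LSq_of_sqMod {v : Pr K} (h2 : (2 : 𝓞 K) ∉ v.asIdeal) {x : K} (hx0 : x ≠ 0) (hx : od v x = 0) (h : SqMod v x) : LSq v x := sorry

/-- C2b. PROOF. AddMonoidHom.ext on singles (Finsupp.addHom_ext'), cu_single, qs_mul outside S (2 is not in v for v not in S by h2 : Two S). -/
theorem cu_mul {S : Finset (Pr K)} (h2 : Two S) {x y : Kˣ} (hx : x ∈ US S) (hy : y ∈ US S) :
    cu S ((x * y : Kˣ) : K) = cu S (x : K) + cu S (y : K) := sorry

/-- C2c. Characters of order 2 kill the divisors of local squares.
PROOF. c in XS S with N. x in LS S. For v in S choose y_v with val_v (x / y_v^2 - 1) < exp (-N). approx (CFT/B14) gives y in K, y <> 0, near to y_v at v in S (so near that val_v (y / y_v - 1) < exp(-N): take precision N + |od v y_v|, all v in S), any signs.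
Then x / y^2 = (x / y_v^2) (y_v / y)^2 is near 1 at S (near_mul, near_inv) and positive, so Ray S N (x / y^2), dv (x / y^2) in Pray S N, 0 = c (dv (x/y^2)) = c (dv x) - 2 c (dv y) = c (dv x) in ZMod 2. -/
theorem c_LS {S : Finset (Pr K)} {c : Dv K →+ ZMod 2} (hc : c ∈ XS S) {x : Kˣ} (hx : x ∈ LS S) : c (dv (x : K)) = 0 := sorry

/-- C2d. PROOF. E agrees outside S with dv 1: E is in Pray S N. -/
theorem c_supp {S : Finset (Pr K)} {c : Dv K →+ ZMod 2} (hc : c ∈ XS S) {E : Dv K} (hE : ∀ v ∉ S, E v = 0) : c E = 0 := sorry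

/-- C2e. Two characters which agree almost everywhere are equal.
PROOF. c - c' in XS S with some N; let D be a divisor; moving (CFT/B15) with T = S': x in the ray with (D + dv x) v = 0 for v in S', v not in S. Let E = D + dv x; (c - c') (dv x) = 0; E = its part supported on S (killed, C2d) plus a combination of single v 1 with v not in S',
v not in S (killed by h): (c - c') E = 0. -/
theorem c_ext {S : Finset (Pr K)} {c c' : Dv K →+ ZMod 2} (hc : c ∈ XS S) (hc' : c' ∈ XS S) (S' : Finset (Pr K))
    (h : ∀ v ∉ S', c (Finsupp.single v 1) = c' (Finsupp.single v 1)) : c = c' := sorry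

end Pool.Agent.QR
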