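import Pool.Agent.Lib.QR.Q2
import Pool.Agent.Lib.CFT.B18

open NumberField IsDedekindDomain CFT

namespace Pool.Agent.QR

set_option linter.unusedSectionVars false

variable {K : Type} [Field K] [NumberField K] {L : Type} [Field L] [NumberField L] [Algebra K L]

/-- Q3. The Frobenius element and the residue symbol.
PROOF. s = frob K L v, w above v (below_surj). frob_spec (B17): s x - x^(Nm v) in w for x in O_L. Write u = c + y^2-type data with integral elements: since od v u = 0 choose b in O_K not in v with b^2 u in O_K and replace u by u b^2, alpha by alpha b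
(IsQE.scale with z = b⁻¹; SqMod is invariant under multiplication by squares of v-units; frac_prime of B03: u = a/b, use u b^2 = a b). So let u = u0 in O_K, u0 not in v; then alpha is an algebraic integer alpha0.
(=>) If s = 1 then alpha0^(q) = alpha0 mod w, q = Nm v odd (2 is a unit mod v so q = card O_K/v is odd), so u0^((q-1)/2) = 1 in O_L/w, hence in O_K/v (the map O_K/v -> O_L/w is injective), so by Euler's criterion in the finite field O_K/v
(FiniteField.isSquare_iff, ringChar <> 2) u0 = y0^2 mod v: SqMod (val (u0 - y0^2) < 1, od_pos_iff). (<=) If SqMod v u0 then u0 is a square in O_K/v: val (u0 - y^2) < 1 gives val y = 1; write y = c/d with d not in v, u0 d^2 - c^2 in v; d is invertible mod v.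
Then u0^((q-1)/2) = 1 mod v, so s alpha0 = alpha0^q = alpha0 u0^((q-1)/2) = alpha0 mod w; if s <> 1 then s alpha0 = - alpha0 so 2 alpha0 in w, contradiction. -/
theorem frob_iff {u : K} {α : L} (h : IsQE K L u α) {v : Pr K} (h2 : (2 : 𝓞 K) ∉ v.asIdeal) (hv : od v u = 0) :
    frob K L v = 1 ↔ SqMod v u := sorry

end Pool.Agent.QR
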