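import Pool.Agent.Lib.QR.Q2
import Pool.Agent.Lib.CFT.B18

open NumberField IsDedekindDomain CFT

namespace Pool.Agent.QR

set_option linter.unusedSectionVars false

variable {K : Type} [Field K] [NumberField K] {L : Type} [Field L] [NumberField L] [Algebra K L]

/-- Q4. Local squares: the prime splits completely (also for v above 2).
PROOF. N = od v 2 * 2 [K-order], choose y with val_v (u / y^2 - 1) < exp (-N), N >= 2 od v 2 + 1 say; by IsQE.scale (z = y) assume val_v (u - 1) < exp(-N). Let w be above v, e = ramification index; od w x = e od v x for x in K (od_alg).
(alpha - 1)(alpha + 1) = u - 1 has od w >= e (N + 1) > 2 od w 2 (if u = 1 then alpha = 1 or -1, in K, contradiction with h.ex). So od w (alpha - 1) > od w 2 or od w (alpha + 1) > od w 2. Let s <> 1 with s w = w (the image of w as an ideal);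
valuations at w are invariant under s: od w (s x) = od w x. s alpha = - alpha. If od w (alpha - 1) > od w 2 then od w (- alpha - 1) > od w 2, and od w (2) = od w ((alpha + 1) - (alpha - 1)) > od w 2, contradiction; the other case is the same.
So no s <> 1 fixes w: in particular no s <> 1 satisfies s x - x in w for all x (such an s maps w to w) so v is unramified (unr_of_inertia, B16), and the Frobenius element s (frob_spec: s x - x^q in w, so x in w implies s x in w and s w = w as s has
finite order) is 1. -/
theorem split_of_LSq {u : K} {α : L} (h : IsQE K L u α) {v : Pr K} (hv : LSq v u) : Unr K L v ∧ frob K L v = 1 := sorry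

end Pool.Agent.QR
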