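import Pool.Agent.Lib.QR.Q1
import Pool.Agent.Lib.QR.Q3
import Pool.Agent.Lib.QR.Q4
import Pool.Agent.Lib.QR.C2

open NumberField IsDedekindDomain CFT

namespace Pool.Agent.QR

set_option linter.unusedSectionVars false

variable {K : Type} [Field K] [NumberField K]

/-- C3a. The character of u from the Artin symbol.
PROOF. chi : Gal -> Multiplicative (ZMod 2), s -> 0 if s = 1, 1 otherwise, is a homomorphism (group of order 2: s t = 1 if s, t <> 1, because s alpha = t alpha = - alpha gives (s t) alpha = alpha, and h.neg excludes ... : s t = 1 or (s t) alpha = - alpha;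
the latter is impossible as alpha <> - alpha, alpha <> 0). Then art S chi (single v 1) = chi (frob v) for v not in S, = 0 for v in S; it is equal to cu S u (single v 1) by frob_iff (v not in S: 2 not in v, od v u = 0). -/
theorem art_eq_cu {L : Type} [Field L] [NumberField L] [Algebra K L] {u : K} {α : L} (h : IsQE K L u α) {S : Finset (Pr K)} (h2 : Two S)
    (hu : ∀ v ∉ S, od v u = 0) :
    ∃ χ : (L ≃ₐ[K] L) →* Multiplicative (ZMod 2), (∀ s, χ s = 1 ↔ s = 1) ∧
      ∀ D : Dv K, Multiplicative.toAdd ((art S χ D).toMul) = cu S u D := sorry

/-- C3b. PROOF. If u is a square in K, u = t^2, then qs v u = 0 for v not in S (SqMod v u with y = t), cu S u = 0. Otherwise exists_QE, unr_unit (so all v not in S are unramified), hA for L, art_eq_cu: for D in Pray S N, D agrees outside S with dv x,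
Ray S N x, and art S chi D = art S chi (dv x) = 0 (art ignores S: divisors which agree outside S have the same art; or write D = dv x + E with E supported on S). -/
theorem cu_mem (hA : ArtinProp K) {S : Finset (Pr K)} (h2 : Two S) {u : Kˣ} (hu : u ∈ US S) : cu S (u : K) ∈ XS S := sorry

/-- C3c. PROOF. If u is not a square: exists_QE, art_eq_cu: frob v = 1 for all v not in S (chi (frob v) = 1), v unramified (unr_unit); hF: the closure of {1} is everything, so Gal is trivial; but h.ex gives s with s alpha = - alpha <> alpha. -/
theorem cu_inj (hF : FrobGenProp K) {S : Finset (Pr K)} (h2 : Two S) {u : Kˣ} (hu : u ∈ US S) (h : cu S (u : K) = 0) : u ∈ SqK K := sorry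

end Pool.Agent.QR
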