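import Pool.Agent.Lib.CFT.D1

/-! # QR: quadratic characters of number fields. DEFINITIONS

`SqMod v x`: `x` is a square modulo `v` (used for `od v x = 0`). `LSq v x`: `x` is a square in the completion at `v`.
`qs v x : ZMod 2`: the quadratic residue symbol, additive notation (0 for squares). `Two S`: `S` contains the primes above 2.
`US S`: the `S`-units. `LSv v`: the local squares at `v`, `Pos φ`: positive at the real embedding `φ`; `LS S` : local squares at all `v ∈ S`,
positive at all real embeddings. `XS S`: the characters `Dv K →+ ZMod 2` which are trivial on some ray class group `Pray S N`.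
`cu S u`: the character `v ↦ qs v u` (0 on `S`). `Gen S`: `S` generates the narrow class group.
`IsQE K L u α`: `L/K` is quadratic, generated by `α`, `α ^ 2 = u`. -/

open NumberField IsDedekindDomain CFT Filter Topology

namespace Pool.Agent.QR

set_option linter.unusedSectionVars false

section

variable {K : Type} [Field K] [NumberField K]

/-- `x` is a square modulo `v` (used for `od v x = 0`). -/
def SqMod (v : Pr K) (x : K) : Prop := ∃ y : K, v.valuation K (x - y ^ 2) < 1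

/-- `x` is a square in the completion at `v`. -/
def LSq (v : Pr K) (x : K) : Prop :=
  ∀ N : ℕ, ∃ y : K, y ≠ 0 ∧ v.valuation K (x / y ^ 2 - 1) < WithZero.exp (-(N : ℤ))

open Classical in
/-- The quadratic residue symbol, additive notation. -/
noncomputable def qs (v : Pr K) (x : K) : ZMod 2 := if SqMod v x then 0 else 1

/-- `S` contains the primes above 2. -/
def Two (S : Finset (Pr K)) : Prop := ∀ v : Pr K, (2 : 𝓞 K) ∈ v.asIdeal → v ∈ S

/-- The `S`-units. -/
def US (S : Finset (Pr K)) : Subgroup Kˣ where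
  carrier := {x | ∀ v ∉ S, od v (x : K) = 0}
  one_mem' := fun v _ => by rw [Units.val_one, od_one]
  mul_mem' := fun {x y} hx hy v hv => by
    rw [Units.val_mul, od_mul v x.ne_zero y.ne_zero, hx v hv, hy v hv, add_zero]
  inv_mem' := fun {x} hx v hv => by rw [Units.val_inv_eq_inv_val, od_inv, hx v hv, neg_zero]

theorem mem_US {S : Finset (Pr K)} {x : Kˣ} : x ∈ US S ↔ ∀ v ∉ S, od v (x : K) = 0 := Iff.rfl

theorem near_unit {v : Pr K} {N : ℕ} {z : K} (h : v.valuation K (z - 1) < WithZero.exp (-(N : ℤ))) : v.valuation K z = 1 := by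
  have h1 : v.valuation K (z - 1) < 1 := h.trans_le (exp_le_one N)
  have h2 : z = 1 + (z - 1) := by ring
  rw [h2]
  exact Valuation.map_one_add_of_lt _ h1

theorem near_mul {v : Pr K} {N : ℕ} {z w : K} (hz : v.valuation K (z - 1) < WithZero.exp (-(N : ℤ)))
    (hw : v.valuation K (w - 1) < WithZero.exp (-(N : ℤ))) : v.valuation K (z * w - 1) < WithZero.exp (-(N : ℤ)) := by
  have e : z * w - 1 = (z - 1) * w + (w - 1) := by ring
  rw [e]
  refine Valuation.map_add_lt _ ?_ hw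
  rw [map_mul, near_unit hw, mul_one]
  exact hz

theorem near_inv {v : Pr K} {N : ℕ} {z : K} (hz0 : z ≠ 0) (hz : v.valuation K (z - 1) < WithZero.exp (-(N : ℤ))) :
    v.valuation K (z⁻¹ - 1) < WithZero.exp (-(N : ℤ)) := by
  have e : z⁻¹ - 1 = -((z - 1) * z⁻¹) := by
    field_simp
    ring
  rw [e, Valuation.map_neg, map_mul, map_inv₀, near_unit hz, inv_one, mul_one]
  exact hz

theorem LSq.mul {v : Pr K} {x y : K} (hx : LSq v x) (hy : LSq v y) : LSq v (x * y) := by
  intro N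
  obtain ⟨a, ha, h1⟩ := hx N
  obtain ⟨b, hb, h2⟩ := hy N
  refine ⟨a * b, mul_ne_zero ha hb, ?_⟩
  have e : x * y / (a * b) ^ 2 = x / a ^ 2 * (y / b ^ 2) := by
    rw [mul_pow, mul_div_mul_comm]
  rw [e]
  exact near_mul h1 h2

theorem LSq.inv {v : Pr K} {x : K} (hx0 : x ≠ 0) (hx : LSq v x) : LSq v x⁻¹ := by
  intro N
  obtain ⟨a, ha, h1⟩ := hx N
  refine ⟨a⁻¹, inv_ne_zero ha, ?_⟩
  have e : x⁻¹ / a⁻¹ ^ 2 = (x / a ^ 2)⁻¹ := by
    rw [inv_pow, inv_div, div_inv_eq_mul]
    ring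
  rw [e]
  exact near_inv (div_ne_zero hx0 (pow_ne_zero 2 ha)) h1

theorem lsq_sq {v : Pr K} {x : K} (hx : x ≠ 0) : LSq v (x ^ 2) := fun N =>
  ⟨x, hx, by rw [div_self (pow_ne_zero 2 hx), sub_self, map_zero]; exact WithZero.zero_lt_coe _⟩

/-- The local squares at `v`. -/
def LSv (v : Pr K) : Subgroup Kˣ where
  carrier := {x | LSq v (x : K)}
  one_mem' := by
    have h := lsq_sq (v := v) (x := (1 : K)) one_ne_zero
    rw [one_pow] at h
    exact h
  mul_mem' := fun {x y} hx hy => by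
    show LSq v ((x * y : Kˣ) : K)
    rw [Units.val_mul]
    exact hx.mul hy
  inv_mem' := fun {x} hx => by
    show LSq v ((x⁻¹ : Kˣ) : K)
    rw [Units.val_inv_eq_inv_val]
    exact LSq.inv x.ne_zero hx

theorem mem_LSv {v : Pr K} {x : Kˣ} : x ∈ LSv v ↔ LSq v (x : K) := Iff.rfl

/-- The elements which are positive at `φ`. -/
def Pos (φ : K →+* ℝ) : Subgroup Kˣ where
  carrier := {x | 0 < φ (x : K)}
  one_mem' := by
    show 0 < φ ((1 : Kˣ) : K)
    rw [Units.val_one, map_one]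
    exact one_pos
  mul_mem' := fun {x y} hx hy => by
    show 0 < φ ((x * y : Kˣ) : K)
    rw [Units.val_mul, map_mul]
    exact mul_pos hx hy
  inv_mem' := fun {x} hx => by
    show 0 < φ ((x⁻¹ : Kˣ) : K)
    rw [Units.val_inv_eq_inv_val, map_inv₀]
    exact inv_pos.2 hx

theorem mem_Pos {φ : K →+* ℝ} {x : Kˣ} : x ∈ Pos φ ↔ 0 < φ (x : K) := Iff.rfl

/-- Local squares at `S`, positive at the real embeddings. -/
def LS (S : Finset (Pr K)) : Subgroup Kˣ := (⨅ v : {v // v ∈ S}, LSv v.1) ⊓ ⨅ φ : K →+* ℝ, Pos φ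

theorem mem_LS {S : Finset (Pr K)} {x : Kˣ} : x ∈ LS S ↔ (∀ v ∈ S, LSq v (x : K)) ∧ ∀ φ : K →+* ℝ, 0 < φ (x : K) := by
  unfold LS
  rw [Subgroup.mem_inf, Subgroup.mem_iInf, Subgroup.mem_iInf]
  constructor
  · rintro ⟨h1, h2⟩
    exact ⟨fun v hv => h1 ⟨v, hv⟩, fun φ => h2 φ⟩
  · rintro ⟨h1, h2⟩
    exact ⟨fun v => h1 v.1 v.2, fun φ => h2 φ⟩

/-- The squares of the group of units of `K`. -/
def SqK (K : Type) [Field K] : Subgroup Kˣ := (powMonoidHom 2 : Kˣ →* Kˣ).range

theorem mem_SqK {K : Type} [Field K] {x : Kˣ} : x ∈ SqK K ↔ ∃ y : Kˣ, y ^ 2 = x := Iff.rfl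

/-- Characters of order 2, modulus supported on `S`. -/
def XS (S : Finset (Pr K)) : AddSubgroup (Dv K →+ ZMod 2) where
  carrier := {c | ∃ N : ℕ, ∀ D ∈ Pray S N, c D = 0}
  zero_mem' := ⟨0, fun _ _ => rfl⟩
  add_mem' := by
    rintro a b ⟨N, ha⟩ ⟨M, hb⟩
    refine ⟨max N M, fun D hD => ?_⟩
    obtain ⟨x, hx, h1⟩ := hD
    have hN : D ∈ Pray S N := ⟨x, ⟨hx.ne, fun v hv => (hx.cong v hv).trans_le (by
      rw [WithZero.exp_le_exp]
      have := le_max_left N M
      omega), hx.pos⟩, h1⟩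
    have hM : D ∈ Pray S M := ⟨x, ⟨hx.ne, fun v hv => (hx.cong v hv).trans_le (by
      rw [WithZero.exp_le_exp]
      have := le_max_right N M
      omega), hx.pos⟩, h1⟩
    rw [AddMonoidHom.add_apply, ha D hN, hb D hM, add_zero]
  neg_mem' := by
    rintro a ⟨N, ha⟩
    refine ⟨N, fun D hD => ?_⟩
    rw [AddMonoidHom.neg_apply, ha D hD, neg_zero]

theorem mem_XS {S : Finset (Pr K)} {c : Dv K →+ ZMod 2} : c ∈ XS S ↔ ∃ N : ℕ, ∀ D ∈ Pray S N, c D = 0 := Iff.rfl

open Classical in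
/-- The character `v ↦ qs v u`. -/
noncomputable def cu (S : Finset (Pr K)) (u : K) : Dv K →+ ZMod 2 :=
  Finsupp.liftAddHom fun v => zmultiplesHom (ZMod 2) (if v ∈ S then 0 else qs v u)

open Classical in
theorem cu_single (S : Finset (Pr K)) (u : K) (v : Pr K) : cu S u (Finsupp.single v 1) = if v ∈ S then 0 else qs v u := by
  unfold cu
  rw [Finsupp.liftAddHom_apply_single, zmultiplesHom_apply, one_zsmul]

open Classical in
theorem cu_apply (S : Finset (Pr K)) (u : K) (D : Dv K) : cu S u D = D.sum fun v k => if v ∈ S then 0 else k • qs v u := by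
  unfold cu
  rw [Finsupp.liftAddHom_apply]
  refine Finsupp.sum_congr fun v _ => ?_
  rw [zmultiplesHom_apply]
  by_cases h : v ∈ S
  · rw [if_pos h, if_pos h, smul_zero]
  · rw [if_neg h, if_neg h]

/-- `S` generates the narrow class group. -/
def Gen (S : Finset (Pr K)) : Prop :=
  ∀ D : Dv K, ∃ E : Dv K, (∀ v ∉ S, E v = 0) ∧ D - E ∈ Pray (∅ : Finset (Pr K)) 0

end

/-- `L/K` is quadratic, generated by `α`, a square root of `u`. -/
structure IsQE (K : Type) [Field K] [NumberField K] (L : Type) [Field L] [NumberField L] [Algebra K L] (u : K) (α : L) : Prop where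
  sq : α ^ 2 = algebraMap K L u
  rank : Module.finrank K L = 2
  gal : IsGalois K L
  neg : ∀ s : L ≃ₐ[K] L, s = 1 ∨ s α = -α
  ex : ∃ s : L ≃ₐ[K] L, s α = -α
  ne : u ≠ 0
  com : ∀ a b : L ≃ₐ[K] L, a * b = b * a

/-- Artin reciprocity over `K` (CFT.artin). -/
def ArtinProp (K : Type) [Field K] [NumberField K] : Prop :=
  ∀ (L : Type) [Field L] [NumberField L] [Algebra K L] [IsGalois K L], (∀ a b : L ≃ₐ[K] L, a * b = b * a) →
    ∀ S : Finset (Pr K), (∀ v : Pr K, ¬ Unr K L v → v ∈ S) →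
      ∃ N : ℕ, ∀ (A : Type) [CommGroup A] (χ : (L ≃ₐ[K] L) →* A) (x : K), Ray S N x → art S χ (dv x) = 0

/-- The Frobenius elements generate (CFT.frob_gen). -/
def FrobGenProp (K : Type) [Field K] [NumberField K] : Prop :=
  ∀ (L : Type) [Field L] [NumberField L] [Algebra K L] [IsGalois K L], (∀ a b : L ≃ₐ[K] L, a * b = b * a) →
    ∀ S : Finset (Pr K), Subgroup.closure {s : L ≃ₐ[K] L | ∃ v : Pr K, v ∉ S ∧ Unr K L v ∧ frob K L v = s} = ⊤

/-- Quadratic extensions: split and inert primes have the same density (CFTC.quad). -/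
def QuadProp (K : Type) [Field K] [NumberField K] : Prop :=
  ∀ (L : Type) [Field L] [NumberField L] [Algebra K L] [IsGalois K L], Module.finrank K L = 2 →
    ∀ S : Finset (Pr K), (∀ v : Pr K, ¬ Unr K L v → v ∈ S) →
      ∀ w : Pr K → ℂ, (∀ v ∉ S, frob K L v = 1 → w v = 1) → (∀ v ∉ S, frob K L v ≠ 1 → w v = -1) →
        Tendsto (fun x : ℕ => (∑ᶠ v ∈ {v : Pr K | Nm v ≤ x}, w v) / (Nat.primeCounting x : ℂ)) atTop (𝓝 0)

/-- Ray class characters which are not real have mean value 0 over the primes (CFTC.hecke_pnt, infinity type 0). -/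
def HeckeProp (K : Type) [Field K] [NumberField K] : Prop :=
  ∀ (S : Finset (Pr K)) (N : ℕ) (χ : Dv K →+ Additive ℂˣ), (∀ D ∈ Pray S N, χ D = 0) →
    (∃ v ∉ S, (((χ (Finsupp.single v 1)).toMul : ℂˣ) : ℂ) ^ 2 ≠ 1) →
      Tendsto (fun x : ℕ => (∑ᶠ v ∈ {v : Pr K | Nm v ≤ x}, (((χ (Finsupp.single v 1)).toMul : ℂˣ) : ℂ)) / (Nat.primeCounting x : ℂ)) atTop (𝓝 0)

/-- The prime ideal theorem (CFTC.prime_ideal_thm). -/
def PitProp (K : Type) [Field K] [NumberField K] : Prop :=
  Tendsto (fun x : ℕ => (Set.ncard {v : Pr K | Nm v ≤ x} : ℝ) / (Nat.primeCounting x : ℝ)) atTop (𝓝 1)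

/-- All ray class groups are finite (CFT.pray_fin). -/
def FinProp (K : Type) [Field K] [NumberField K] : Prop := ∀ (S : Finset (Pr K)) (N : ℕ), (Pray S N).FiniteIndex

end Pool.Agent.QR
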