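import Pool.Agent.Lib.QR.D0
import Pool.Agent.Lib.CFT.B15

open NumberField IsDedekindDomain CFT

namespace Pool.Agent.QR

set_option linter.unusedSectionVars false

variable {K : Type} [Field K] [NumberField K]

/-- G1. Generators of the narrow class group outside a finite set T.
PROOF. The quotient Q = Dv K / Pray ∅ 0 is finite (hf). For every class choose a representative D and by moving (CFT/B15, S = ∅, T) an x in the ray with (D + dv x) v = 0 for v in T; D + dv x is in the same class. S = S0 together with the supports of these finitely many divisors.
Gen: given D take the representative E of its class. -/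
theorem exists_gen (hf : (Pray (∅ : Finset (Pr K)) 0).FiniteIndex) (S₀ T : Finset (Pr K)) (hT : ∀ t ∈ T, t ∉ S₀) :
    ∃ S : Finset (Pr K), S₀ ⊆ S ∧ (∀ t ∈ T, t ∉ S) ∧ Gen S := sorry

theorem two_mono {S S' : Finset (Pr K)} (h : S ⊆ S') (h2 : Two S) : Two S' := fun v hv => h (h2 v hv)

/-- PROOF. 2 is not zero, finitely many primes contain it (od_fin 2). -/
theorem exists_two (K : Type) [Field K] [NumberField K] : ∃ S : Finset (Pr K), Two S := sorry

end Pool.Agent.QR
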