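import Pool.Agent.Lib.QR.D0
import Pool.Agent.Lib.CFT.B01

open NumberField IsDedekindDomain CFT

namespace Pool.Agent.QR

set_option linter.unusedSectionVars false

variable {K : Type} [Field K] [NumberField K]

/-- L2. Elements of order 2 in the units modulo v^(2e+1), e = od v 2.
PROOF. Let R = O_K / v^(2e+1). A unit t of R with t^2 = 1 is the class of some a in O_K with (a - 1)(a + 1) in v^(2e+1). If a - 1 and a + 1 are not in v^(e+1) then they are not 0 and
od (a - 1) <= e, od (a + 1) <= e (od_le_iff of B01), so od of the product is <= 2 e (od_mul), contradiction. So t - 1 or t + 1 is in the image J of v^(e+1) in R. J has at most Nm v ^ e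
elements: J = v^(e+1) / v^(2e+1) = kernel of the surjection R -> O_K / v^(e+1) (Ideal.Quotient.factor), and card R = Nm v ^ (2e+1), card (O_K / v^(e+1)) = Nm v ^ (e+1)
(Ideal.absNorm is the cardinality of the quotient, multiplicative; AddSubgroup.card_eq_card_quotient_mul_card_addSubgroup or card of fibres). The map t -> (t - 1 in J, t + 1 in J)
gives card <= 2 * card J: the set is contained in the union of the images of J under j -> j + 1 and j -> j - 1. -/
theorem tors_le (v : Pr K) (e : ℕ) (he : od v (2 : K) = e) :
    Nat.card {t : (𝓞 K ⧸ v.asIdeal ^ (2 * e + 1))ˣ // t ^ 2 = 1} ≤ 2 * Nm v ^ e := sorry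

/-- The quotient is finite. PROOF. Ideal.finiteQuotientOfFreeOfNeBot (or the like), v.ne_bot, pow_ne_zero. -/
theorem quot_fin (v : Pr K) (k : ℕ) : Finite (𝓞 K ⧸ v.asIdeal ^ k) := sorry

end Pool.Agent.QR
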