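import Pool.Agent.Lib.QR.D0

namespace Pool.Agent.QR

/-- L3. PROOF. Let f = powMonoidHom 2. card G = card ker f * card range f (Subgroup.card_mul_index for ker f and QuotientGroup.quotientKerEquivRange), card G = card range f * index of range f
(Subgroup.card_mul_index); cancel card range f > 0. ker f is the subtype (MonoidHom.mem_ker, powMonoidHom_apply). -/
theorem idx_sq_fin {G : Type} [CommGroup G] [Finite G] :
    ((powMonoidHom 2 : G →* G).range).index = Nat.card {t : G // t ^ 2 = 1} := sorry

/-- Characters of order 2 of a finite abelian group. PROOF. G ->* Multiplicative (ZMod 2) embeds into G ->* units of ℂ (compose with the injection k -> (-1)^k), and the latter has card G elements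
(CommGroup.card_monoidHom_of_hasEnoughRootsOfUnity, the instance for ℂ exists). Alternatively into MulChar / AddChar: AddChar.card_eq. -/
theorem card_hom_le (G : Type) [CommGroup G] [Finite G] : Nat.card (G →* Multiplicative (ZMod 2)) ≤ Nat.card G := sorry

theorem finite_hom (G : Type) [CommGroup G] [Finite G] : Finite (G →* Multiplicative (ZMod 2)) :=
  DFunLike.finite _

end Pool.Agent.QR
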