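import Pool.Agent.Lib.QR.D0
import Pool.Agent.Lib.CFT.B01
import Pool.Agent.Lib.CFT.B03

open NumberField IsDedekindDomain CFT

namespace Pool.Agent.QR

set_option linter.unusedSectionVars false

variable {K : Type} [Field K] [NumberField K]

/-- The elements with od v x = 0. -/
def Uv (v : Pr K) : Subgroup Kˣ where
  carrier := {x | od v (x : K) = 0}
  one_mem' := by
    show od v ((1 : Kˣ) : K) = 0
    rw [Units.val_one, od_one]
  mul_mem' := fun {x y} hx hy => by
    show od v ((x * y : Kˣ) : K) = 0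
    rw [Units.val_mul, od_mul v x.ne_zero y.ne_zero, show od v (x : K) = 0 from hx, show od v (y : K) = 0 from hy, add_zero]
  inv_mem' := fun {x} hx => by
    show od v ((x⁻¹ : Kˣ) : K) = 0
    rw [Units.val_inv_eq_inv_val, od_inv, show od v (x : K) = 0 from hx, neg_zero]

theorem mem_Uv {v : Pr K} {x : Kˣ} : x ∈ Uv v ↔ od v (x : K) = 0 := Iff.rfl

/-- L4a. Integral approximation. PROOF. x = b / c with b, c in O_K, c not in v (frac_prime of B03, S = {v}); c c' - 1 in v^k for some c' (the class of c in O_K / v^k is a unit because v^k is a power of the maximal ideal v not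
containing c: Ideal.Quotient... IsCoprime.pow_right; v maximal: v.isPrime.isMaximal v.ne_bot); a = b c'; x - a = b (1 - c c') / c; valuations: val c = 1. -/
theorem int_near (v : Pr K) (k : ℕ) (x : Uv v) : ∃ a : 𝓞 K, v.valuation K (((x : Kˣ) : K) - (a : K)) ≤ WithZero.exp (-(k : ℤ)) := sorry

/-- L4. Reduction modulo v^k.
PROOF. For x with od v x = 0 there is a in O_K with val (x - a) <= exp(-k) (int_near). Two such a, a' satisfy a - a' in v^k (val (a - a') <= exp(-k), od_le_iff), so the class A(x) of a is well defined (choice). A(x y) = A(x) A(y):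
x y - a b = x (y - b) + b (x - a), and A(1) = 1; so A(x) is a unit with inverse A(x⁻¹) and rho = (x -> the unit with value A(x)) is a homomorphism (MonoidHom.mk' or by hand, Units.ext). -/
theorem exists_red (v : Pr K) (k : ℕ) : ∃ ρ : Uv v →* (𝓞 K ⧸ v.asIdeal ^ k)ˣ, ∀ (x : Uv v) (a : 𝓞 K),
    v.valuation K (((x : Kˣ) : K) - (a : K)) ≤ WithZero.exp (-(k : ℤ)) →
    ((ρ x : (𝓞 K ⧸ v.asIdeal ^ k)ˣ) : 𝓞 K ⧸ v.asIdeal ^ k) = Ideal.Quotient.mk (v.asIdeal ^ k) a := sorry

end Pool.Agent.QR
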