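import Pool.Agent.Lib.QR.L1
import Pool.Agent.Lib.QR.L2
import Pool.Agent.Lib.QR.L3
import Pool.Agent.Lib.QR.L4

open NumberField IsDedekindDomain CFT

namespace Pool.Agent.QR

set_option linter.unusedSectionVars false

variable {K : Type} [Field K] [NumberField K]

/-- L4B. The index of the local squares in the units at v.
PROOF. k = 2 e + 1, rho from exists_red, Q = the squares of (O_K/v^k)^* (range of powMonoidHom 2), a subgroup of index <= 2 Nm v^e (idx_sq_fin, tors_le, quot_fin). Q.comap rho has nonzero index <= Q.index in Uv v
(Subgroup.index_comap gives relIndex Q (range rho); relIndex <= index: Subgroup.relIndex_le_index or index_comap_le...). If rho x = s^2, choose b in O_K with class s (Ideal.Quotient.mk_surjective) and a in O_K near x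
(int_near), so a - b^2 in v^k, b not in v, and
val (x - b^2) <= exp(-k), val (x / b^2 - 1) <= exp(-(2e+1)) < exp(-2e), so x / b^2 is in LSv (lsq_of_near) and x is in LSv (lsq_sq, LSq.mul). So (Q.comap rho) mapped into the units of K is contained in LSv v, and
relIndex (LSv v) (Uv v) divides or is <= the index of Q.comap rho (Subgroup.relIndex as index of (LSv v).subgroupOf (Uv v); Subgroup.index_antitone). -/
theorem relIndex_LSv (v : Pr K) (e : ℕ) (he : od v (2 : K) = e) :
    (LSv v).relIndex (Uv v) ≠ 0 ∧ (LSv v).relIndex (Uv v) ≤ 2 * Nm v ^ e := sorry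

end Pool.Agent.QR
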