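import Pool.Agent.Lib.QR.L4B
import Pool.Agent.Lib.CFT.B15

open NumberField IsDedekindDomain CFT

namespace Pool.Agent.QR

set_option linter.unusedSectionVars false

variable {K : Type} [Field K] [NumberField K]

/-- L5. The index of the local squares at v.
PROOF. J = LSv v ⊔ Uv v. If od v x is even, od v x = 2 m, take z with od v z = m (b15_ex); x = z^2 * (x / z^2) is in J. So J contains the kernel of x -> od v x mod 2, hence J.index is 1 or 2
(J contains every x * y with both x and y outside J; Subgroup.index_dvd_of_le and the index of the kernel of the homomorphism to Multiplicative (ZMod 2); or Subgroup.index_eq_two_iff ...).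
Subgroup.relIndex_mul_index for LSv v <= J: (LSv v).relIndex J * J.index = (LSv v).index; (LSv v).relIndex J = (LSv v).relIndex (Uv v) (Subgroup.relIndex_sup_right or relIndex_sup_left; LSv is normal). -/
theorem index_LSv (v : Pr K) (e : ℕ) (he : od v (2 : K) = e) : (LSv v).index ≠ 0 ∧ (LSv v).index ≤ 4 * Nm v ^ e := sorry

end Pool.Agent.QR
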