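import Pool.Agent.Lib.QR.D0
import Pool.Agent.Lib.CFT.B05
import Pool.Agent.Lib.CFT.B01

open NumberField IsDedekindDomain CFT

namespace Pool.Agent.QR

set_option linter.unusedSectionVars false

variable {K : Type} [Field K] [NumberField K]

/-- L6. PROOF. nD_dv (CFT/B05): nD (dv 2) = |Norm 2| = 2^[K:Q] (Algebra.norm_algebraMap: norm of a rational number). nD D is the product of Nm v ^ D v (Finsupp.prod, see its definition in CFT/D2); the support of dv 2 is
contained in S: if v is not in S then 2 is not in v (hypothesis h2) so od v 2 = 0 (od_pos_iff, od_nonneg). Finsupp.prod_of_support_subset. od v 2 >= 0 so zpow is pow of toNat. -/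
theorem prod_two (S : Finset (Pr K)) (h2 : Two S) : ∏ v ∈ S, Nm v ^ (od v (2 : K)).toNat = 2 ^ Module.finrank ℚ K := sorry

end Pool.Agent.QR
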