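import Pool.Agent.Lib.QR.D0

open NumberField IsDedekindDomain CFT NumberField.InfinitePlace

namespace Pool.Agent.QR

set_option linter.unusedSectionVars false

variable {K : Type} [Field K] [NumberField K]

/-- L7a. PROOF. For x, y not in Pos φ: φ x < 0, φ y < 0 so x y is in Pos φ. Subgroup.index_ne_zero... : the index is at most 2: the quotient injects into a two element set by the sign (or: Pos φ is the kernel of the
homomorphism x -> sign (φ x) in the units of ℤ; index of a kernel = card of the range). -/
theorem index_Pos (φ : K →+* ℝ) : (Pos φ).index ≠ 0 ∧ (Pos φ).index ≤ 2 := sorry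

/-- L7b. PROOF. K ->+* ℝ is in bijection with the real places: φ -> InfinitePlace.mk ((algebraMap ℝ ℂ).comp φ); injective (mk_eq_iff and conjugation is trivial on real embeddings), surjective onto the real places
(isReal_iff, ComplexEmbedding.IsReal.embedding). nrRealPlaces K = Fintype.card {w // IsReal w} . -/
theorem card_real : Nat.card (K →+* ℝ) = nrRealPlaces K := sorry

end Pool.Agent.QR
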