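import Pool.Agent.Lib.QR.L5
import Pool.Agent.Lib.QR.L6
import Pool.Agent.Lib.QR.L7

open NumberField IsDedekindDomain CFT NumberField.InfinitePlace

namespace Pool.Agent.QR

set_option linter.unusedSectionVars false

variable {K : Type} [Field K] [NumberField K]

/-- L8. The index of LS S.
PROOF. LS S = (inf over v in S of LSv v) inf (inf over φ of Pos φ). Subgroup.index_inf_le, Subgroup.index_iInf_le (for finite families; and index_iInf_ne_zero) : the index is at most
prod over v in S of (4 Nm v^(e_v)) * prod over φ of 2 = 4^card S * 2^[K:Q] * 2^r1 (index_LSv with e = (od v 2).toNat, prod_two, index_Pos, card_real; products over the subtype {v // v in S}: Finset.prod_coe_sort).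
[K:Q] = r1 + 2 r2: NumberField.InfinitePlace.card_add_two_mul_card_eq_rank. So it is 4^(card S) * 2^(2 r1 + 2 r2). -/
theorem index_LS (S : Finset (Pr K)) (h2 : Two S) :
    (LS S).index ≠ 0 ∧ (LS S).index ≤ 4 ^ (S.card + nrRealPlaces K + nrComplexPlaces K) := sorry

end Pool.Agent.QR
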