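import Pool.Agent.Lib.QR.T4

open NumberField IsDedekindDomain CFT Filter Topology

namespace Pool.Agent.QR

set_option linter.unusedSectionVars false

variable {K : Type} [Field K] [NumberField K]

open Classical in
/-- P1. PROOF. S1 = S ∪ (a set with Two, exists_two). XS_mono: c1 in XS S1 equal to c outside S1. exists_u (T = ∅): u, S' with c v = c1 v = qs v u for v not in S', u in US S'. u is not a square in K: otherwise qs v u = 0 for all v not in S' and c = 0 by c_ext (c in XS S, 0 in XS S), contradicting hn.
exists_QE, QuadProp for L and S' (unr_unit) with w v = 1 if frob = 1, -1 otherwise for v not in S' (w v = the value in the statement: frob_iff, qs) and for v in S' w v = the value in the statement (no condition): apply hQ directly with w v = if c (single v 1) = 0 then 1 else -1. -/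
theorem mean_real (hA : ArtinProp K) (hF : FrobGenProp K) (hf : (Pray (∅ : Finset (Pr K)) 0).FiniteIndex) (hQ : QuadProp K) {S : Finset (Pr K)}
    {c : Dv K →+ ZMod 2} (hc : c ∈ XS S) (hn : c ≠ 0) :
    Tendsto (fun x : ℕ => (∑ᶠ v ∈ {v : Pr K | Nm v ≤ x}, (if c (Finsupp.single v 1) = 0 then (1 : ℂ) else -1)) / (Nat.primeCounting x : ℂ)) atTop (𝓝 0) := sorry

/-- P2. PROOF. If some v not in S has chi(v)^2 <> 1: hH. Otherwise chi (single v 1) is 1 or -1 for all v (for v in S it is 1 as single v 1 is in Pray S N, c_supp like). Define c = the homomorphism with c (single v 1) = 0 or 1 according to chi (single v 1) = 1 or not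
(Finsupp.liftAddHom); chi D = (-1)^(c D) on generators, so for all D; c is in XS S with the same N (chi D = 0 in Additive iff c D = 0) and c <> 0. mean_real; the summands agree. -/
theorem mean_zero (hA : ArtinProp K) (hF : FrobGenProp K) (hf : (Pray (∅ : Finset (Pr K)) 0).FiniteIndex) (hQ : QuadProp K) (hH : HeckeProp K)
    (S : Finset (Pr K)) (N : ℕ) (χ : Dv K →+ Additive ℂˣ) (h1 : ∀ D ∈ Pray S N, χ D = 0) (hn : χ ≠ 0) :
    Tendsto (fun x : ℕ => (∑ᶠ v ∈ {v : Pr K | Nm v ≤ x}, (((χ (Finsupp.single v 1)).toMul : ℂˣ) : ℂ)) / (Nat.primeCounting x : ℂ)) atTop (𝓝 0) := sorry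

end Pool.Agent.QR
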