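import Pool.Agent.Lib.QR.P1

open NumberField IsDedekindDomain CFT Filter Topology

namespace Pool.Agent.QR

set_option linter.unusedSectionVars false

variable {K : Type} [Field K] [NumberField K]

/-- P3a. PROOF. {v : Nm v <= x} is finite (ideals of bounded norm: Ideal.finite_setOf_absNorm_le or the proof of CFTC nm_fin). -/
theorem nm_fin (x : ℕ) : {v : Pr K | Nm v ≤ x}.Finite := sorry

/-- P3. PRIME IDEAL THEOREM IN RAY CLASSES.
PROOF. Q = Dv K / Pray S N finite, h = card Q = index (hf). Orthogonality: for q in Q, (1/h) sum over the characters psi of Q (psi : Q ->+ Additive of the units of ℂ, or AddChar Q ℂ, h of them) of psi q = 1 if q = 0, 0 otherwise (AddChar.sum_eq_ite or AddChar.expect_..., duality of finite abelian groups).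
So the counting function is (1/h) sum over psi of psi (- D) sum over v with Nm v <= x of psi v; divide by primeCounting: the trivial psi gives 1/h (hP), the others 0 (mean_zero for chi = psi composed with the quotient map, chi <> 0 as the quotient map is surjective). finite sum of limits. -/
theorem ray_density (hA : ArtinProp K) (hF : FrobGenProp K) (hf : FinProp K) (hQ : QuadProp K) (hH : HeckeProp K) (hP : PitProp K)
    (S : Finset (Pr K)) (N : ℕ) (D : Dv K) :
    Tendsto (fun x : ℕ => (Set.ncard {v : Pr K | Nm v ≤ x ∧ Finsupp.single v 1 - D ∈ Pray S N} : ℝ) / (Nat.primeCounting x : ℝ)) atTop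
      (𝓝 (1 / (Pray S N).index)) := sorry

/-- P4. Infinitely many principal primes (x), x in the ray modulo S, with prescribed residues at T; the norm is a prime number.
PROOF. approx: y in K, y <> 0, Ray S N y, val_t (y - a t) < exp(-N) for t in T (t not in S), so val_t y = 1 (ha). ray_density for S ∪ T, D = dv y: positive density 1/index > 0, so infinitely many v; the primes v whose norm is not a prime number have density 0 (Nm v = p^f, f >= 2: at most [K:Q] primes over each p,
p <= sqrt x: CHEB/C3.lean card_le', minFac_le_of_ne; or prove directly), and S ∪ T ∪ F is finite, so there is v outside of these with single v 1 - dv y in Pray (S ∪ T) N: single v 1 = dv (y x') outside S ∪ T, Ray (S ∪ T) N x'; on S ∪ T both sides are 0 (y and x' are units there).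
x = y x': Ray S N x (Ray.mul), and val_t (x - a t) <= max (val_t (y x' - y), val_t (y - a t)) < exp(-N). -/
theorem exists_prime_elt (hA : ArtinProp K) (hF : FrobGenProp K) (hf : FinProp K) (hQ : QuadProp K) (hH : HeckeProp K) (hP : PitProp K)
    (S T : Finset (Pr K)) (hST : Disjoint S T) (N : ℕ) (a : Pr K → K) (ha : ∀ t ∈ T, od t (a t) = 0 ∧ a t ≠ 0) (F : Finset (Pr K)) :
    ∃ (v : Pr K) (x : K), v ∉ F ∧ (Nm v).Prime ∧ Ray S N x ∧ dv x = Finsupp.single v 1 ∧ ∀ t ∈ T, t.valuation K (x - a t) < WithZero.exp (-(N : ℤ)) := sorry

end Pool.Agent.QR
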