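import Pool.Agent.Lib.QR.D0

open NumberField IsDedekindDomain CFT Polynomial

namespace Pool.Agent.QR

set_option linter.unusedSectionVars false

variable {K : Type} [Field K] [NumberField K]

/-- Q1. Existence of the quadratic extension.
PROOF. P = X^2 - C u is irreducible (X_pow_sub_C_irreducible_of_prime Nat.prime_two, or degree 2 without roots), L = AdjoinRoot P with Fact (Irreducible P); L is finite dimensional over K (AdjoinRoot.powerBasis, finrank = natDegree = 2),
so a number field (NumberField.of_module_finite K L, characteristic zero is needed: charZero_of_injective_algebraMap). alpha = root; alpha^2 = u. Galois: separable (char 0) and splitting field: normal because P = (X - alpha)(X + alpha)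
(IsGalois.of_separable_splitting_field, or IsQuadraticExtension: finrank 2 implies normal; Algebra.IsQuadraticExtension has an instance IsGalois/Normal in characteristic <> 2).
For s: s alpha is a root of P so s alpha = alpha or - alpha; if s alpha = alpha then s = 1 (alpha generates: AlgEquiv.ext by AdjoinRoot.induction_on / powerBasis.algHom_ext). card Gal = 2 (IsGalois.card_aut_eq_finrank) so some s <> 1.
Commutative: group of order 2 (isCyclic_of_prime_card). -/
theorem exists_QE {u : K} (hu : u ≠ 0) (hs : ¬ IsSquare u) :
    ∃ (L : Type) (_ : Field L) (_ : NumberField L) (_ : Algebra K L) (α : L), IsQE K L u α := sorry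

end Pool.Agent.QR
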