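import Pool.Agent.Lib.QR.D0
import Pool.Agent.Lib.CFT.B17
import Pool.Agent.Lib.CFT.B06
import Pool.Agent.Lib.CFT.B15

open NumberField IsDedekindDomain CFT

namespace Pool.Agent.QR

set_option linter.unusedSectionVars false

variable {K : Type} [Field K] [NumberField K] {L : Type} [Field L] [NumberField L] [Algebra K L]

/-- Q2s. Scaling. PROOF. (alpha / z)^2 = u / z^2; s (alpha / z) = s alpha / z. -/
theorem IsQE.scale {u : K} {α : L} (h : IsQE K L u α) {z : K} (hz : z ≠ 0) : IsQE K L (u / z ^ 2) (α / algebraMap K L z) := sorry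

/-- Q2a. Unramified at odd primes when u is a unit.
PROOF. h.gal : IsGalois K L. Let w be above v, val_w = w.valuation L. od_alg (B06): od w of an element x of K is e * od v x; so od w (alpha^2) = 0, od w alpha = 0, val_w alpha = 1. Also 2 is not in w (2 is not in v = w ∩ O_K).
Use unr_of_inertia (B16): let s be with s x - x in w for all x in O_L. If s <> 1 then s alpha = - alpha (h.neg). alpha need not be integral outside w: choose b in O_L, b not in w, with b alpha in O_L
(frac_prime of B03, alpha = a / b with b not in w): s a - a in w, s b - b in w, a = alpha b; s a = - alpha s b. So - alpha s b - alpha b in w, i.e. alpha (s b + b) has val_w < 1; s b + b = 2 b + (s b - b), val_w of it is 1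
as val_w (2 b) = 1 and val_w (s b - b) < 1. Contradiction with val_w alpha = 1. -/
theorem unr_unit {u : K} {α : L} (h : IsQE K L u α) {v : Pr K} (h2 : (2 : 𝓞 K) ∉ v.asIdeal) (hv : od v u = 0) : Unr K L v := sorry

/-- Q2b. The even case. PROOF. od v u = 2 m, z with od v z = m (b15_ex), IsQE.scale, unr_unit. -/
theorem unr_even {u : K} {α : L} (h : IsQE K L u α) {v : Pr K} (h2 : (2 : 𝓞 K) ∉ v.asIdeal) (hv : Even (od v u)) : Unr K L v := sorry

/-- Q2c. Odd order: ramified. PROOF. w above v (below_surj): 2 od w alpha = od w (alpha^2) = e * od v u (od_alg), so if e = 1 then od v u is even. -/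
theorem ram_odd {u : K} {α : L} (h : IsQE K L u α) {v : Pr K} (hv : Odd (od v u)) : ¬ Unr K L v := sorry

end Pool.Agent.QR
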