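import Pool.Agent.Lib.QR.T4

open NumberField IsDedekindDomain CFT

namespace Pool.Agent.QR

set_option linter.unusedSectionVars false

variable {K : Type} [Field K] [NumberField K]

open Classical in
/-- R1a. PROOF. g is a local square at t (LSq_of_sqMod; 2 is not in t because t is not in S2 and Two S2) so g is in LS (insert t S2), c_LS. -/
theorem comp_sq {S₂ : Finset (Pr K)} (h2 : Two S₂) {t : Pr K} (ht : t ∉ S₂) {c : Dv K →+ ZMod 2} (hc : c ∈ XS (insert t S₂)) {g : Kˣ} (hg : g ∈ LS S₂)
    (hg0 : od t (g : K) = 0) (hq : qs t (g : K) = 0) : c (dv (g : K)) = 0 := sorry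

open Classical in
/-- R1b. The component at t is trivial if K(sqrt d) is unramified at t (od t d even).
PROOF. od t d = 2 m, z in K with od t z = m (b15_ex), z <> 0. d' = d / z^2: od t d' = 0. Z = the set of primes v with od v z <> 0, v <> t. S3 = S2 ∪ Z (t not in S3), d' in US S3, c' = cu S3 d' in XS S3 (cu_mem, two_mono). c = cu (insert t S2) d.
approx (CFT/B14): h in K, h <> 0, near g (relative precision: val_v (h / g - 1) < exp(-N)) at v in insert t S2, near 1 at the v in Z not in S2, and of the sign of g, i.e. positive; N as in ray_ls or large. Then g / h is a local square at insert t S2 (L1: near 1) and positive, so c (dv (g/h)) = 0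
(c_LS, cu_mem) and c (dv g) = c (dv h). h is a unit at t and at Z. h in LS S3: at v in S2: h = g (h/g), at Z: near 1 (for v in Z odd: near 1 with N >= 2 od v 2). So c' (dv h) = 0 (c_LS). Finally c (dv h) = c' (dv h): both are sums over the primes v of od v h times
the symbol (cu_apply); for v in insert t S2 ∪ Z: v = t: od t h = 0; v in S2: both symbols are 0; v in Z, not in S2: od v h = 0; for the other v: qs v d = qs v (d'), since d = d' z^2 with od v z = 0 (sqMod_mul_sq). -/
theorem comp_even (hA : ArtinProp K) {S₂ : Finset (Pr K)} (h2 : Two S₂) {t : Pr K} (ht : t ∉ S₂) {d : Kˣ} (hd : d ∈ US (insert t S₂)) (he : Even (od t (d : K)))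
    {g : Kˣ} (hg : g ∈ LS S₂) (hg0 : od t (g : K) = 0) : cu (insert t S₂) (d : K) (dv (g : K)) = 0 := sorry

end Pool.Agent.QR
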