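import Pool.Agent.Lib.QR.R1

open NumberField IsDedekindDomain CFT

namespace Pool.Agent.QR

set_option linter.unusedSectionVars false

variable {K : Type} [Field K] [NumberField K]

open Classical in
/-- R2a. If the component of c at t is trivial on units then c comes from a character modulo S2.
PROOF. hpi: choose pi in K, pi <> 0, with od t pi = 1, near 1 at S2 (precision N of ray_ls) and positive (approx + b15_ex), so pi in LS S2. Let lam = c (dv pi), c'' = c + lam * (D -> D t mod 2). c'' in XS S2 with the N of ray_ls: D in Pray S2 N, D = dv x outside S2, Ray S2 N x, so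
x in LS S2, k = od t x; x / pi^k is in LS S2 and a unit at t: c (dv x) = k lam (h0), c'' (dv x) = k lam + lam k = 0; D - dv x is supported on S2: c of it is 0 (c_supp, supported on insert t S2) and its value at t is 0. -/
theorem descend {S₂ : Finset (Pr K)} {t : Pr K} (ht : t ∉ S₂) {c : Dv K →+ ZMod 2} (hc : c ∈ XS (insert t S₂))
    (h0 : ∀ g : Kˣ, g ∈ LS S₂ → od t (g : K) = 0 → c (dv (g : K)) = 0) :
    ∃ c'' ∈ XS S₂, ∀ v, v ≠ t → c'' (Finsupp.single v 1) = c (Finsupp.single v 1) := sorry

open Classical in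
/-- R2b. The component at t is the residue symbol if od t d is odd.
PROOF. Suppose c (dv g) = 0, c = cu (insert t S2) d. Claim: hypothesis h0 of descend: let g' in LS S2 be a unit at t. If qs t g' = 0: comp_sq. If qs t g' = 1: qs t (g' g) = 0 (qs_mul, 1 + 1 = 0), so c (dv (g' g)) = 0 and c (dv g') = c (dv g) = 0. So c'' in XS S2, exists_u_even gives u with
even order at t, S' containing S2, and c'' v = qs v u for v not in S'. For v not in S'' = insert t S': cu S'' (d u) (single v 1) = qs v d + qs v u = c v + c'' v = 0 (qs_mul), so cu S'' (d u) = 0, d u is in US S'', and d u is a square in K (cu_inj): od t (d u) is even, but od t d is odd and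
od t u even. Contradiction; so c (dv g) <> 0 and it is 1 in ZMod 2. -/
theorem comp_odd (hA : ArtinProp K) (hF : FrobGenProp K) (hf : (Pray (∅ : Finset (Pr K)) 0).FiniteIndex) {S₂ : Finset (Pr K)} (h2 : Two S₂) {t : Pr K} (ht : t ∉ S₂)
    {d : Kˣ} (hd : d ∈ US (insert t S₂)) (he : Odd (od t (d : K)))
    {g : Kˣ} (hg : g ∈ LS S₂) (hg0 : od t (g : K) = 0) (hq : qs t (g : K) = 1) : cu (insert t S₂) (d : K) (dv (g : K)) = 1 := sorry

open Classical in
/-- R2c. PROOF. Cases: od t d even: comp_even, and (2 m) • z = 0 in ZMod 2. Odd: qs t g is 0 or 1: comp_sq (with cu_mem) or comp_odd; an odd integer acts as the identity on ZMod 2. -/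
theorem comp (hA : ArtinProp K) (hF : FrobGenProp K) (hf : (Pray (∅ : Finset (Pr K)) 0).FiniteIndex) {S₂ : Finset (Pr K)} (h2 : Two S₂) {t : Pr K} (ht : t ∉ S₂)
    {d : Kˣ} (hd : d ∈ US (insert t S₂)) {g : Kˣ} (hg : g ∈ LS S₂) (hg0 : od t (g : K) = 0) :
    cu (insert t S₂) (d : K) (dv (g : K)) = od t (d : K) • qs t (g : K) := sorry

end Pool.Agent.QR
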