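import Pool.Agent.Lib.QR.R2

open NumberField IsDedekindDomain CFT

namespace Pool.Agent.QR

set_option linter.unusedSectionVars false

variable {K : Type} [Field K] [NumberField K]

open Classical in
/-- R3a. PROOF. approx (CFT/B14) with precision N (from ray_ls for S ∪ T, and >= what follows): for t in T there is g_t in K, nonzero, near x at t (val_t (g_t / x - 1) < exp(-N)), near 1 at the other v in S ∪ T, positive. Then g_t is in LS ((S ∪ T).erase t), od t g_t = od t x = 0,
qs t g_t = qs t x (qs_congr: val_t (g_t - x) < 1), and x / prod over t of g_t is in LS (S ∪ T): at v in S: x is a local square and the g_t are near 1; at t in T: x / g_t near 1, the other g are near 1 (ray_ls / lsq_of_near). -/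
theorem split_x {S T : Finset (Pr K)} (hST : Disjoint S T) {x : Kˣ} (hx : x ∈ LS S) (hx0 : ∀ t ∈ T, od t (x : K) = 0) :
    ∃ g : Pr K → Kˣ, (∀ t ∈ T, g t ∈ LS ((S ∪ T).erase t) ∧ od t (g t : K) = 0 ∧ qs t (g t : K) = qs t (x : K)) ∧
      x * (∏ t ∈ T, g t)⁻¹ ∈ LS (S ∪ T) := sorry

open Classical in
/-- R3b. PROOF. c = cu (S ∪ T) d in XS (S ∪ T) (cu_mem, d in US (S ∪ T), two_mono). c (dv (x / prod g_t)) = 0 (c_LS), so c (dv x) = sum over t in T of c (dv (g t)); each is od t d • qs t x by comp with S2 = (S ∪ T).erase t (insert t (erase t) = S ∪ T: Finset.insert_erase; Two of it: t is not in S,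
so S is contained in the erase). -/
theorem sum_comp (hA : ArtinProp K) (hF : FrobGenProp K) (hf : (Pray (∅ : Finset (Pr K)) 0).FiniteIndex) {S T : Finset (Pr K)} (h2 : Two S) (hST : Disjoint S T)
    {d : Kˣ} (hd : d ∈ US (S ∪ T)) {x : Kˣ} (hx : x ∈ LS S) (hx0 : ∀ t ∈ T, od t (x : K) = 0) :
    cu (S ∪ T) (d : K) (dv (x : K)) = ∑ t ∈ T, od t (d : K) • qs t (x : K) := sorry

/-- R3c. THE QUADRATIC RECIPROCITY LAW of number fields: (d / x) = (x / d) away from S, for x a local square at S (for example x = 1 modulo 4 times the primes of S, ray_ls / lsq_of_near) and positive at the real embeddings.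
PROOF. T = the support of dv d outside S. cu S d (dv x) = cu (S ∪ T) d (dv x), because od v x = 0 for v in T (cu_apply); sum_comp; cu S x (dv d) = sum over the support of dv d outside S of od v d • qs v x (cu_apply, Finsupp.sum over the support). -/
theorem reciprocity (hA : ArtinProp K) (hF : FrobGenProp K) (hf : (Pray (∅ : Finset (Pr K)) 0).FiniteIndex) {S : Finset (Pr K)} (h2 : Two S)
    {d x : Kˣ} (hx : x ∈ LS S) (hdx : ∀ v ∉ S, od v (d : K) = 0 ∨ od v (x : K) = 0) :
    cu S (d : K) (dv (x : K)) = cu S (x : K) (dv (d : K)) := sorry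

end Pool.Agent.QR
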