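import Pool.Agent.Lib.QR.Q1
import Pool.Agent.Lib.QR.Q3
import Pool.Agent.Lib.QR.Q4

open NumberField IsDedekindDomain CFT

namespace Pool.Agent.QR

set_option linter.unusedSectionVars false

variable {K : Type} [Field K] [NumberField K]

/-- T1. An S-unit which is a square locally at S (and positive) is a square, if S generates the narrow class group.
PROOF. Assume u is not a square: (L, alpha) from exists_QE. v in S: split_of_LSq: unramified, frob v = 1. v not in S: unr_unit. So L/K is unramified everywhere: hA with S := ∅ gives N with art ∅ chi (dv x) = 0 for x totally positive (Ray ∅ N x iff x <> 0 positive; it does not depend on N),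
chi = identity of Gal (a commutative group: put the CommGroup structure from h.com on it, as in CFT/Core.lean; or use chi : Gal -> Multiplicative (ZMod 2), injective). art ∅ chi E = 0 for E supported on S (frob = 1 there). So art ∅ chi = 0 on Dv K by Gen S. So frob v = 1 for all v and
hF (S := ∅) shows that Gal is trivial, contradiction to h.ex (s alpha = - alpha <> alpha). -/
theorem sq_of_LS (hA : ArtinProp K) (hF : FrobGenProp K) {S : Finset (Pr K)} (h2 : Two S) (hg : Gen S) {u : Kˣ} (hu : u ∈ US S)
    (hl : u ∈ LS S) : u ∈ SqK K := sorry

end Pool.Agent.QR
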