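import Pool.Agent.Lib.QR.L3

namespace Pool.Agent.QR

/-- U2. PROOF. M = Additive G is a finitely generated ℤ-module: M = F x T with F free of rank r = finrank and T = torsion finite (Module.equiv_free_prod_directSum or AddCommGroup.equiv_free_prod_directSum_zmod;
or: M / torsion is free, split). The index of 2 M is 2^r * index of 2 T = 2^r * card T[2] (idx_sq_fin) and T[2] = M[2] has 2 elements. -/
theorem idx_sq_fg {G : Type} [CommGroup G] [Module.Finite ℤ (Additive G)] (h2 : Nat.card {t : G // t ^ 2 = 1} = 2) :
    ((powMonoidHom 2 : G →* G).range).index = 2 ^ (Module.finrank ℤ (Additive G) + 1) := sorry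

end Pool.Agent.QR
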