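import Pool.Agent.Lib.QR.U1
import Pool.Agent.Lib.QR.U2

open NumberField IsDedekindDomain CFT NumberField.InfinitePlace

namespace Pool.Agent.QR

set_option linter.unusedSectionVars false

variable {K : Type} [Field K] [NumberField K]

/-- U3. PROOF. idx_sq_fg for G = US S: t^2 = 1 in US S iff t = 1 or t = -1 (sq_eq_one_iff_of_ne..., mul_self_eq_one in a field; -1 is in US S as od v (-1) = 0: 2 od v (-1) = od v 1 = 0; and 1 is not -1 in characteristic 0), so
the card is 2. US_rank; NumberField.Units.rank K = card (InfinitePlace K) - 1, and card = nrRealPlaces + nrComplexPlaces (card_eq_nrRealPlaces_add_nrComplexPlaces), which is >= 1. -/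
theorem idx_sq_US (hf : (Pray (∅ : Finset (Pr K)) 0).FiniteIndex) (S : Finset (Pr K)) :
    ((powMonoidHom 2 : US S →* US S).range).index = 2 ^ (S.card + nrRealPlaces K + nrComplexPlaces K) := sorry

end Pool.Agent.QR
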