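import Pool.Agent.Lib.QR.T1
import Pool.Agent.Lib.QR.C3
import Pool.Agent.Lib.QR.L8
import Pool.Agent.Lib.QR.U3

open NumberField IsDedekindDomain CFT NumberField.InfinitePlace

namespace Pool.Agent.QR

set_option linter.unusedSectionVars false

variable {K : Type} [Field K] [NumberField K]

/-- T2a. PROOF. s = card S + r1 + r2. relIndex of LS S in US S is the index of (LS S).subgroupOf (US S), which is contained in the squares of the group US S (sq_of_LS: u = y^2, y in the units of K; od v y = 0 for v not in S because 2 od v y = 0, so y in US S);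
so its index, if nonzero, is a multiple of (or at least) 2^s = idx_sq_US (Subgroup.index_dvd_of_le). (LS).index = (LS).relIndex (LS ⊔ US) * (LS ⊔ US).index and (LS).relIndex (LS ⊔ US) = (LS).relIndex US (Subgroup.relIndex_sup_...). With index_LS <= 4^s. -/
theorem index_sup (hA : ArtinProp K) (hF : FrobGenProp K) (hf : (Pray (∅ : Finset (Pr K)) 0).FiniteIndex) {S : Finset (Pr K)} (h2 : Two S) (hg : Gen S) :
    (LS S ⊔ US S).index ≠ 0 ∧ (LS S ⊔ US S).index ≤ 2 ^ (S.card + nrRealPlaces K + nrComplexPlaces K) := sorry

/-- T2b. PROOF. c -> (x -> c (dv x)) maps XS S to the homomorphisms of the group of units of K to Multiplicative (ZMod 2) which are trivial on LS S (c_LS) and US S (c_supp), so to homomorphisms of the quotient by LS ⊔ US (finite by T2a). It is injective: if c (dv x) = 0 for all x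
then c = 0 by Gen S and c_supp (D = E + dv x, modulo divisors which vanish... for S = ∅ in Gen: D - E = dv x everywhere). card_hom_le, finite_hom. -/
theorem card_XS (hA : ArtinProp K) (hF : FrobGenProp K) (hf : (Pray (∅ : Finset (Pr K)) 0).FiniteIndex) {S : Finset (Pr K)} (h2 : Two S) (hg : Gen S) :
    Finite (XS S) ∧ Nat.card (XS S) ≤ 2 ^ (S.card + nrRealPlaces K + nrComplexPlaces K) := sorry

end Pool.Agent.QR
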