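import Pool.Agent.Lib.QR.T2

open NumberField IsDedekindDomain CFT NumberField.InfinitePlace

namespace Pool.Agent.QR

set_option linter.unusedSectionVars false

variable {K : Type} [Field K] [NumberField K]

/-- T3. Every quadratic character is the character of an S-unit (S generating).
PROOF. u -> cu S u is a homomorphism US S -> XS S (written multiplicatively on the target; cu_mul, cu_mem); its kernel is the group of squares of US S (cu_inj and od; squares are in the kernel). So its range has idx_sq_US = 2^s elements (index of the kernel = card of the range,
Subgroup.index_ker), and XS S has at most 2^s elements (card_XS): the range is everything (finite set of the same cardinality). -/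
theorem eq_cu_of_gen (hA : ArtinProp K) (hF : FrobGenProp K) (hf : (Pray (∅ : Finset (Pr K)) 0).FiniteIndex) {S : Finset (Pr K)} (h2 : Two S) (hg : Gen S)
    {c : Dv K →+ ZMod 2} (hc : c ∈ XS S) : ∃ u : Kˣ, u ∈ US S ∧ c = cu S (u : K) := sorry

end Pool.Agent.QR
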