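import Pool.Agent.Lib.QR.T3
import Pool.Agent.Lib.QR.G1

open NumberField IsDedekindDomain CFT NumberField.InfinitePlace

namespace Pool.Agent.QR

set_option linter.unusedSectionVars false

variable {K : Type} [Field K] [NumberField K]

/-- T4a. Enlarging S. PROOF. c' := the homomorphism which is c on single v 1, v not in S', and 0 for v in S' (Finsupp.liftAddHom). If D in Pray S' N, D = dv x outside S', Ray S' N x; then x is a unit at S' (Ray.unit), so dv x is zero on S' and c' D = c (dv x) (c' D is the sum over v not in S' of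
D v c(v) = sum over v of (dv x) v c(v)), and Ray S N x (S subset S'), c (dv x) = 0. -/
theorem XS_mono {S S' : Finset (Pr K)} (h : S ⊆ S') {c : Dv K →+ ZMod 2} (hc : c ∈ XS S) :
    ∃ c' ∈ XS S', (∀ v ∉ S', c' (Finsupp.single v 1) = c (Finsupp.single v 1)) ∧ (∀ x : Kˣ, (∀ v ∈ S', od v (x : K) = 0) → c' (dv (x : K)) = c (dv (x : K))) := sorry

/-- T4b. THE EXISTENCE THEOREM for characters of order 2: for every finite set T outside S0 there is u with c = the character of u almost everywhere, od_t u = 0 for t in T.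
PROOF. exists_gen with S0, T; XS_mono; eq_cu_of_gen for c'. S' in the statement = the generating set; cu_single. -/
theorem exists_u (hA : ArtinProp K) (hF : FrobGenProp K) (hf : (Pray (∅ : Finset (Pr K)) 0).FiniteIndex) {S₀ : Finset (Pr K)} (h2 : Two S₀)
    {c : Dv K →+ ZMod 2} (hc : c ∈ XS S₀) (T : Finset (Pr K)) (hT : ∀ t ∈ T, t ∉ S₀) :
    ∃ u : Kˣ, (∀ t ∈ T, od t (u : K) = 0) ∧ ∃ S' : Finset (Pr K), S₀ ⊆ S' ∧ u ∈ US S' ∧ ∀ v ∉ S', c (Finsupp.single v 1) = qs v (u : K) := sorry

/-- T4c. The orders outside S0 are even. PROOF. u from exists_u with T = ∅, S'. Let t be not in S0. u_t from exists_u with T = {t}, S'_t. The S-unit u u_t (for S'' = S' ∪ S'_t) has cu S'' (u u_t) = cu u + cu u_t = c + c = 0 outside S'' (cu_mul), so it is a square (cu_inj): od t u + od t u_t is even. -/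
theorem exists_u_even (hA : ArtinProp K) (hF : FrobGenProp K) (hf : (Pray (∅ : Finset (Pr K)) 0).FiniteIndex) {S₀ : Finset (Pr K)} (h2 : Two S₀)
    {c : Dv K →+ ZMod 2} (hc : c ∈ XS S₀) :
    ∃ u : Kˣ, (∀ t ∉ S₀, Even (od t (u : K))) ∧ ∃ S' : Finset (Pr K), S₀ ⊆ S' ∧ u ∈ US S' ∧ ∀ v ∉ S', c (Finsupp.single v 1) = qs v (u : K) := sorry

end Pool.Agent.QR
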