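import Pool.Agent.Lib.QR.D0
import Pool.Agent.Lib.CFT.B02
import Pool.Agent.Lib.CFT.B15

open NumberField IsDedekindDomain CFT

namespace Pool.Agent.QR

set_option linter.unusedSectionVars false

variable {K : Type} [Field K] [NumberField K]

/-- U1. The S-unit theorem.
PROOF. f : Additive (US S) ->+ (S -> ℤ), x -> (od v x)_v. Kernel: the x with dv x = 0, i.e. the image of the units of O_K (unit_of_dv, dv_unit of CFT/B02), isomorphic to Additive (units of O_K): finitely generated of rank
NumberField.Units.rank K (Mathlib: NumberField.Units, Monoid.FG / Module.Finite ℤ (Additive (𝓞 K)ˣ); the rank of Additive units as ℤ-module: see H69H/U5.lean u5_finrank, or Units.rank_modTorsion with torsion). Range: a submodule of ℤ^S, so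
finitely generated; it contains h e_v for every v with h >= 1: the quotient Dv K / Pray ∅ 0 is finite (hypothesis hf) so h * single v 1 is the divisor of an element (which is an S-unit), h = index. So the range has rank card S.
Module.Finite: extension of finitely generated modules (Module.Finite.of_submodule_quotient or Submodule.fg_of_fg_map_of_fg_inf_ker). finrank: LinearMap.finrank_range_add_finrank_ker (ℤ is a domain; or Module.rank quotient additivity). -/
theorem US_fin (S : Finset (Pr K)) : Module.Finite ℤ (Additive (US S)) := sorry

theorem US_rank (hf : (Pray (∅ : Finset (Pr K)) 0).FiniteIndex) (S : Finset (Pr K)) : Module.finrank ℤ (Additive (US S)) = S.card + NumberField.Units.rank K := sorry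

end Pool.Agent.QR
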